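import Pool.Agent.H22.W.Def

/-!
# SE NullPoly: a nonpositively curved pseudo-length vanishes along the rational curves
-/

set_option autoImplicit false

open Topology Filter Metric

namespace Pool.Agent.SE

open Pool.Agent.H36.BP (EN)
open Pool.Agent.H14.PP (IsCone Tan CurveAt)
open Pool.Agent.H22.W (PseudoLength tan_entire)

variable {N : ℕ} {X : Set (EN N)}

/-- multiples of a tangent vector -/
theorem tan_smul_right {x v : EN N} (h : Tan X x v) (c : ℂ) : Tan X x (c • v) := by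
  obtain ⟨F, ⟨hF, hFX⟩, h0, h1⟩ := h
  have hl : AnalyticAt ℂ (fun z : ℂ => c * z) 0 := by fun_prop
  have hc0 : c * (0 : ℂ) = 0 := mul_zero c
  have hF' : AnalyticAt ℂ F (c * 0) := by rw [hc0]; exact hF
  refine ⟨fun z => F (c * z), ⟨hF'.fun_comp hl, ?_⟩, by simp [h0], ?_⟩
  · have h2 : Tendsto (fun z : ℂ => c * z) (𝓝 0) (𝓝 0) := by
      have := hl.continuousAt.tendsto
      simpa using this
    exact h2.eventually hFX
  · have h3 : HasDerivAt (fun z : ℂ => F (c * z)) (c • deriv F (c * 0)) 0 := by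
      have h4 : HasDerivAt (fun z : ℂ => c * z) c 0 := by simpa using (hasDerivAt_id (0 : ℂ)).const_mul c
      exact hF'.differentiableAt.hasDerivAt.scomp 0 h4
    rw [h3.deriv, hc0, h1]

/-- the length of the velocity of a rational curve, seen from the other chart of the projective line -/
theorem null_inv (hX : IsCone X) (n : PseudoLength X) {d : ℕ} {K K' : ℂ → EN N} (hK' : Differentiable ℂ K')
    (hm' : ∀ z, K' z ∈ X) (hrel : ∀ z : ℂ, z ≠ 0 → K z = z ^ d • K' z⁻¹) {z : ℂ} (hz : z ≠ 0) :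
    n.toFun (K z) (deriv K z) = ‖z‖⁻¹ ^ 2 * n.toFun (K' z⁻¹) (deriv K' z⁻¹) := by
  have h1 : HasDerivAt (fun w : ℂ => w ^ d • K' w⁻¹) (z ^ d • ((-(z ^ 2)⁻¹) • deriv K' z⁻¹) + ((d : ℂ) * z ^ (d - 1)) • K' z⁻¹) z := by
    have h2 : HasDerivAt (fun w : ℂ => K' w⁻¹) ((-(z ^ 2)⁻¹) • deriv K' z⁻¹) z :=
      (hK' z⁻¹).hasDerivAt.scomp z (hasDerivAt_inv hz)
    exact (hasDerivAt_pow d z).smul h2
  have h3 : deriv K z = z ^ d • ((-(z ^ 2)⁻¹) • deriv K' z⁻¹) + ((d : ℂ) * z ^ (d - 1)) • K' z⁻¹ := by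
    have h4 : K =ᶠ[𝓝 z] fun w => w ^ d • K' w⁻¹ := by
      filter_upwards [isOpen_ne.mem_nhds hz] with w hw
      exact hrel w hw
    rw [h4.deriv_eq, h1.deriv]
  have ht : Tan X (K' z⁻¹) (deriv K' z⁻¹) := tan_entire hK' hm' _
  have hzd : z ^ d ≠ 0 := pow_ne_zero _ hz
  rw [h3, hrel z hz, n.inv hX (tan_smul_right ht _) hzd, n.smul _ _ ht, norm_neg, norm_inv, norm_pow, inv_pow]

/-- A nonpositively curved pseudo-length vanishes along the rational curves. -/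
theorem null_rat (hX : IsCone X) (n : PseudoLength X) {d : ℕ} {K K' : ℂ → EN N} (hK : Differentiable ℂ K)
    (hK' : Differentiable ℂ K') (hm : ∀ z, K z ∈ X) (hm' : ∀ z, K' z ∈ X)
    (hrel : ∀ z : ℂ, z ≠ 0 → K z = z ^ d • K' z⁻¹) (c : ℂ) : n.toFun (K c) (deriv K c) = 0 := by
  set u : ℂ → ℝ := fun z => n.toFun (K z) (deriv K z) with hu
  have hu0 : ∀ z, 0 ≤ u z := fun z => n.nonneg _ _ (tan_entire hK hm z)
  have hcont : Continuous fun z => n.toFun (K' z) (deriv K' z) := n.continuous_curve hK' hm'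
  obtain ⟨B, hB⟩ := (isCompact_closedBall (0 : ℂ) 1).bddAbove_image hcont.continuousOn
  have hB' : ∀ z ∈ closedBall (0 : ℂ) 1, n.toFun (K' z) (deriv K' z) ≤ B := fun z hz => hB ⟨z, hz, rfl⟩
  have hB0 : 0 ≤ B := (n.nonneg _ _ (tan_entire hK' hm' 0)).trans (hB' 0 (mem_closedBall_self zero_le_one))
  have hbd : ∀ z : ℂ, 1 ≤ ‖z‖ → u z ≤ ‖z‖⁻¹ ^ 2 * B := by
    intro z hz
    have hz0 : z ≠ 0 := norm_pos_iff.1 (by linarith)
    rw [hu]
    simp only
    rw [null_inv hX n hK' hm' hrel hz0]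
    refine mul_le_mul_of_nonneg_left (hB' _ ?_) (by positivity)
    rw [mem_closedBall_zero_iff, norm_inv]
    exact inv_le_one_of_one_le₀ hz
  have key : ∀ R : ℝ, ‖c‖ + 1 ≤ R → u c ^ 2 ≤ ((R - ‖c‖)⁻¹ ^ 2 * B) ^ 2 := by
    intro R hR
    have hR0 : 0 < R := by have := norm_nonneg c; linarith
    have h1 := n.curved Set.univ K isOpen_univ hK.differentiableOn (fun z _ => hm z) c R hR0 (Set.subset_univ _)
    refine h1.trans ?_
    refine Real.circleAverage_mono_on_of_le_circle ?_ ?_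
    · exact (((n.continuous_curve hK hm).pow 2).continuousOn).circleIntegrable'
    · intro z hz
      rw [abs_of_pos hR0, mem_sphere_iff_norm] at hz
      have h2 : R - ‖c‖ ≤ ‖z‖ := by
        have := norm_sub_norm_le (z - c) (-c)
        have h3 : ‖z - c - -c‖ = ‖z‖ := by simp
        rw [norm_neg, h3, hz] at this
        exact this
      have h4 : 1 ≤ ‖z‖ := by linarith
      have h5 := hbd z h4
      have h6 : ‖z‖⁻¹ ≤ (R - ‖c‖)⁻¹ := inv_anti₀ (by linarith) h2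
      refine pow_le_pow_left₀ (hu0 z) (h5.trans ?_) 2
      refine mul_le_mul_of_nonneg_right ?_ hB0
      exact pow_le_pow_left₀ (by positivity) h6 2
  have hlim : Tendsto (fun R : ℝ => ((R - ‖c‖)⁻¹ ^ 2 * B) ^ 2) atTop (𝓝 ((0 ^ 2 * B) ^ 2)) := by
    have h1 : Tendsto (fun R : ℝ => (R - ‖c‖)⁻¹) atTop (𝓝 0) :=
      tendsto_inv_atTop_zero.comp (tendsto_atTop_add_const_right _ _ tendsto_id)
    exact ((h1.pow 2).mul_const B).pow 2
  have h2 : u c ^ 2 ≤ (0 ^ 2 * B) ^ 2 := ge_of_tendsto hlim ((eventually_ge_atTop (‖c‖ + 1)).mono key)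
  have h3 : u c ^ 2 ≤ 0 := by simpa using h2
  have h4 : u c ^ 2 = 0 := le_antisymm h3 (sq_nonneg _)
  exact pow_eq_zero_iff (two_ne_zero) |>.1 h4

/-- The same in the other chart. -/
theorem null_rat' (hX : IsCone X) (n : PseudoLength X) {d : ℕ} {K K' : ℂ → EN N} (hK : Differentiable ℂ K)
    (hK' : Differentiable ℂ K') (hm : ∀ z, K z ∈ X) (hm' : ∀ z, K' z ∈ X)
    (hrel : ∀ z : ℂ, z ≠ 0 → K z = z ^ d • K' z⁻¹) (c : ℂ) : n.toFun (K' c) (deriv K' c) = 0 := by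
  refine null_rat hX n (d := d) hK' hK hm' hm (fun z hz => ?_) c
  rw [hrel z⁻¹ (inv_ne_zero hz), inv_inv, smul_smul, ← mul_pow, mul_inv_cancel₀ hz, one_pow, one_smul]

end Pool.Agent.SE
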